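import Pool.Agent.Helper32.OIP.Goals

set_option autoImplicit false

namespace Pool.Agent.Helper40.OIP

open MeasureTheory Pool.Agent.Helper32.OIP Pool.Agent.Helper58.Orb

/-- translation of a finite sum -/
theorem sum_translate {A : Type} [Group A] (V : Finset A) (a : A) (f g : A → ℝ)
    (hg : ∀ i, f i = 0 → g i = 0) (h1 : ∀ j ∉ V, f j = 0) (h2 : ∀ j ∉ V, f (a * j) = 0) :
    ∑ j ∈ V, g (a * j) = ∑ i ∈ V, g i := by
  classical
  have e1 : ∑ i ∈ V.image (fun j => a * j), g i = ∑ j ∈ V, g (a * j) :=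
    Finset.sum_image (fun x _ y _ hxy => mul_left_cancel hxy)
  rw [← e1]
  have e2 : ∑ i ∈ V.image (fun j => a * j), g i = ∑ i ∈ V ∪ V.image (fun j => a * j), g i := by
    refine Finset.sum_subset Finset.subset_union_right ?_
    intro i _ hi
    apply hg
    have h3 : a⁻¹ * i ∉ V := by
      intro h4
      apply hi
      rw [Finset.mem_image]
      exact ⟨a⁻¹ * i, h4, by group⟩
    have h5 := h2 (a⁻¹ * i) h3
    rwa [mul_inv_cancel_left] at h5
  have e3 : ∑ i ∈ V, g i = ∑ i ∈ V ∪ V.image (fun j => a * j), g i := by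
    refine Finset.sum_subset Finset.subset_union_left ?_
    intro i _ hi
    exact hg i (h1 i hi)
  rw [e2, e3]

theorem e6 : GoalE6 := by
  intro A _ S D _ T f V h0 h1 h2
  classical
  obtain ⟨u, hu⟩ : ∃ u : D → A → ℝ,
      u = fun s j => if T.len j + 1 ≤ T.len (T.dir s * j) then f j else 0 := ⟨_, rfl⟩
  -- pointwise bound
  have k1 : ∀ s j, u s j + u (T.inv s) (T.dir s * j) ≤ max (f j) (f (T.dir s * j)) := by
    intro s j
    rw [hu]
    dsimp only
    have e1 : T.dir (T.inv s) * (T.dir s * j) = j := by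
      rw [T.dir_inv, inv_mul_cancel_left]
    rw [e1]
    by_cases p1 : T.len j + 1 ≤ T.len (T.dir s * j)
    · have p2 : ¬ T.len (T.dir s * j) + 1 ≤ T.len j := by omega
      rw [if_pos p1, if_neg p2, add_zero]
      exact le_max_left _ _
    · rw [if_neg p1, zero_add]
      split_ifs
      · exact le_max_right _ _
      · exact le_trans (h0 j) (le_max_left _ _)
  -- translation
  have k2 : ∀ s, ∑ j ∈ V, u (T.inv s) (T.dir s * j) = ∑ j ∈ V, u (T.inv s) j := by
    intro s
    refine sum_translate V (T.dir s) f (u (T.inv s)) ?_ h1 (fun j hj => h2 j hj s)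
    intro i hi
    rw [hu]
    dsimp only
    rw [hi]
    exact ite_self _
  -- involution
  have k3 : ∑ s, ∑ j ∈ V, u (T.inv s) j = ∑ s, ∑ j ∈ V, u s j := by
    have hinv : Function.Involutive T.inv := fun s => T.inv_inv s
    exact Equiv.sum_comp (hinv.toPerm T.inv) (fun s => ∑ j ∈ V, u s j)
  -- number of the directions
  have k4 : ∀ j, ((Fintype.card D : ℝ) - 1) * f j ≤ ∑ s, u s j := by
    intro j
    have e1 : ∑ s, u s j =
        ((Finset.univ.filter (fun s => T.len j + 1 ≤ T.len (T.dir s * j))).card : ℝ) * f j := by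
      rw [hu]
      dsimp only
      rw [← Finset.sum_filter, Finset.sum_const, nsmul_eq_mul]
    rw [e1]
    refine mul_le_mul_of_nonneg_right ?_ (h0 j)
    have e2 : (Finset.univ.filter (fun s => ¬ T.len j + 1 ≤ T.len (T.dir s * j))).card ≤ 1 := by
      rw [Finset.card_le_one]
      intro a ha b hb
      rw [Finset.mem_filter] at ha hb
      by_contra hab
      rcases T.up j a b hab with h | h
      · exact ha.2 h
      · exact hb.2 h
    have e3 := Finset.card_filter_add_card_filter_not (s := (Finset.univ : Finset D))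
      (fun s => T.len j + 1 ≤ T.len (T.dir s * j))
    rw [Finset.card_univ] at e3
    have e4 : Fintype.card D ≤
        (Finset.univ.filter (fun s => T.len j + 1 ≤ T.len (T.dir s * j))).card + 1 := by omega
    have e5 : (Fintype.card D : ℝ) ≤
        ((Finset.univ.filter (fun s => T.len j + 1 ≤ T.len (T.dir s * j))).card : ℝ) + 1 := by
      exact_mod_cast e4
    linarith
  have k5 : ((Fintype.card D : ℝ) - 1) * ∑ j ∈ V, f j ≤ ∑ s, ∑ j ∈ V, u s j := by
    rw [Finset.mul_sum, Finset.sum_comm]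
    exact Finset.sum_le_sum fun j _ => k4 j
  calc 2 * ((Fintype.card D : ℝ) - 1) * ∑ j ∈ V, f j
      = ((Fintype.card D : ℝ) - 1) * ∑ j ∈ V, f j +
        ((Fintype.card D : ℝ) - 1) * ∑ j ∈ V, f j := by ring
    _ ≤ ∑ s, ∑ j ∈ V, u s j + ∑ s, ∑ j ∈ V, u (T.inv s) j := by
        rw [k3]
        exact add_le_add k5 k5
    _ = ∑ s, ∑ j ∈ V, (u s j + u (T.inv s) (T.dir s * j)) := by
        rw [← Finset.sum_add_distrib]
        refine Finset.sum_congr rfl fun s _ => ?_
        rw [Finset.sum_add_distrib, k2 s]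
    _ ≤ ∑ s, ∑ j ∈ V, max (f j) (f (T.dir s * j)) :=
        Finset.sum_le_sum fun s _ => Finset.sum_le_sum fun j _ => k1 s j

end Pool.Agent.Helper40.OIP
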